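import Pool.Agent.RI.Main

/-!
# MP_b326e6_al: property `R_∞` for Artin groups

Full answer to Q1: for a finite set `S` and a Coxeter matrix `M` on `S` (Mathlib's `CoxeterMatrix`, in which
`∞` is written as `0`), the Artin group `A_M` has property `R_∞` if and only if `m_st ≠ 2` for some
`s ≠ t`, i.e. if and only if `A_M` is not abelian.  More generally every finitely generated large
group has property `R_∞`.

All definitions are in `Pool/Agent/RI/Defs.lean`.
-/

namespace Pool.Agent.Results.MP_b326e6_al.RInfinity

open Pool.Agent.RI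

theorem result :
    (∀ (S : Type) [Finite S] (M : CoxeterMatrix S),
      (PropRInf (ArtinGroup M) ↔ ∃ s t : S, s ≠ t ∧ M s t ≠ 2) ∧
      (PropRInf (ArtinGroup M) ↔ ∃ a b : ArtinGroup M, a * b ≠ b * a)) ∧
    (∀ (G : Type) [Group G], Group.FG G → Large G → PropRInf G) := by
  refine ⟨fun S _ M => ⟨artin_propRInf_iff M, ?_⟩, fun G _ hfg hG => large_propRInf hG⟩
  rw [artin_propRInf_iff M]
  constructor
  · rintro ⟨s, t, hst, h2⟩
    obtain ⟨H, _, ψ, a, b, hab⟩ := large_artin M s t hst h2
    refine ⟨a, b, fun h => hab ?_⟩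
    rw [← map_mul, ← map_mul]
    congr 1
    exact Subtype.ext h
  · rintro ⟨a, b, hab⟩
    by_contra hc
    push Not at hc
    exact hab (mul_comm_all M hc a b)

end Pool.Agent.Results.MP_b326e6_al.RInfinity
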